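import Pool.Agent.Q62.VW.Main
import Pool.Agent.Q182.VW.L1
import Pool.Agent.Q182.VW.L2
import Pool.Agent.Q182.VW.L3
import Pool.Agent.Q182.VW.L6
import Pool.Agent.Q182.VW.L7
import Pool.Agent.Q182.VW.L9

/-! Project VW: the final theorem. -/

open MeasureTheory Filter Topology Set

namespace Pool.Agent.Q62.VW

theorem main_all (A γ z lam p : ℝ) (hA : 0 < A) (hγ : 0 < γ) (hz : 0 < z) (hl : 0 < lam)
    (hp : 3 / 2 < p) :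
    ∃ k₀ : ℝ, 0 < k₀ ∧ ∀ k, k₀ ≤ k → ∀ ρ G, IsMin A (k * γ) p (k * z) lam ρ G →
      ¬ ∃ f : ℝ → ℝ, ConvexOn ℝ (Ici 0) f ∧ ∀ᵐ x, √(ρ x) = f ‖x‖ :=
  main Pool.Agent.Q182.VW.t_L2 Pool.Agent.Q182.VW.t_L3 Pool.Agent.Q182.VW.t_L4
    Pool.Agent.Q182.VW.t_L6 Pool.Agent.Q182.VW.t_L7
    (Pool.Agent.Q182.VW.t_L9 Pool.Agent.Q182.VW.t_L3 Pool.Agent.Q182.VW.t_L8) A γ z lam p hA hγ hz hl hp

end Pool.Agent.Q62.VW
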