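import Pool.Agent.Q62.VW.Stm

/-! Project VW: assembly. -/

open MeasureTheory Filter Topology Set
open scoped ContDiff ENNReal

namespace Pool.Agent.Q62.VW

theorem coul_nonneg (ρ : E3 → ℝ) (h : ∀ x, 0 ≤ ρ x) : 0 ≤ coul ρ := by
  unfold coul
  refine mul_nonneg (by norm_num) (integral_nonneg fun q => ?_)
  exact div_nonneg (mul_nonneg (h _) (h _)) (norm_nonneg _)

theorem energy_eq (A γ p z k : ℝ) (ρ : E3 → ℝ) (G : E3 → E3) :
    energy A (k * γ) p (k * z) ρ G = A * (∫ x, ‖G x‖ ^ 2) + k * F γ p z ρ + coul ρ := by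
  unfold energy F
  have : (∫ x, k * z / ‖x‖ * ρ x) = k * ∫ x, z / ‖x‖ * ρ x := by
    rw [← integral_const_mul]
    exact integral_congr_ae (Eventually.of_forall fun x => by simp only; ring)
  rw [this]
  ring

theorem main (l2 : S_L2) (l3 : S_L3) (l4 : S_L4) (l6 : S_L6) (l7 : S_L7) (l9 : S_L9)
    (A γ z lam p : ℝ) (hA : 0 < A) (hγ : 0 < γ) (hz : 0 < z) (hl : 0 < lam) (hp : 3 / 2 < p) :
    ∃ k₀ : ℝ, 0 < k₀ ∧ ∀ k, k₀ ≤ k → ∀ ρ G, IsMin A (k * γ) p (k * z) lam ρ G →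
      ¬ ∃ f : ℝ → ℝ, ConvexOn ℝ (Ici 0) f ∧ ∀ᵐ x, √(ρ x) = f ‖x‖ := by
  by_contra hcon
  push Not at hcon
  have hch : ∀ n : ℕ, ∃ k : ℝ, (n : ℝ) + 1 ≤ k ∧ ∃ ρ G, IsMin A (k * γ) p (k * z) lam ρ G ∧
      ∃ f : ℝ → ℝ, ConvexOn ℝ (Ici 0) f ∧ ∀ᵐ x, √(ρ x) = f ‖x‖ := by
    intro n
    obtain ⟨k, hk, ρ, G, h1, f, h2⟩ := hcon ((n : ℝ) + 1) (by positivity)
    exact ⟨k, hk, ρ, G, h1, f, h2⟩
  choose k hk ρ G hmin f hf hρf using hch
  obtain ⟨m, hm, hmass⟩ := l2 γ p z lam hγ hp hz hl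
  have hb := fun n => l4 γ p z m (ρ n) hγ hp hz hm (hmin n).1.nonneg (hmin n).1.int
    (hmin n).1.intp (by rw [hmass]; exact (hmin n).2.1)
  have hr0 : ∀ x, 0 ≤ rho0 γ p z m x := fun x =>
    Real.rpow_nonneg (div_nonneg (le_max_right _ _) hγ.le) _
  have hbn : ∀ n, 0 ≤ ∫ x, breg p (ρ n x) (rho0 γ p z m x) := fun n =>
    integral_nonneg fun x => (l3 p (by linarith)).1 _ _ ((hmin n).1.nonneg x) (hr0 x)
  refine l9 γ p z m ρ f hγ hp hz hm (fun n => (hmin n).1.nonneg) hf hρf (fun n => (hb n).1) ?_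
  rw [Metric.tendsto_atTop]
  intro ε hε
  obtain ⟨w, hw, hw0, hw1, hw2⟩ := l6 γ p z m hγ hp hz hm (γ * ε / 4) (by positivity)
  have hadm := l7 p w (by linarith) hw hw0
  set C : ℝ := A * (∫ x, ‖gradient w x‖ ^ 2) + coul (fun x => w x ^ 2) with hC
  have hC0 : 0 ≤ C := add_nonneg (mul_nonneg hA.le (integral_nonneg fun x => by positivity))
    (coul_nonneg _ fun x => by positivity)
  obtain ⟨N, hN⟩ := exists_nat_gt (4 * C / (γ * ε))
  refine ⟨N, fun n hn => ?_⟩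
  have hkn : 0 < k n := lt_of_lt_of_le (by positivity) (hk n)
  have h1 := (hmin n).2.2 _ _ hadm (by rw [← hmass]; exact hw1)
  rw [energy_eq, energy_eq] at h1
  have h2 : 0 ≤ A * ∫ x, ‖G n x‖ ^ 2 :=
    mul_nonneg hA.le (integral_nonneg fun x => by positivity)
  have h3 := coul_nonneg (ρ n) (hmin n).1.nonneg
  have h4 : k n * F γ p z (ρ n) ≤ k n * F γ p z (fun x => w x ^ 2) + C := by
    rw [hC]; linarith
  have h5 : k n * (γ * ∫ x, breg p (ρ n x) (rho0 γ p z m x)) ≤ k n * (γ * ε / 4) + C := by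
    have h6 := (hb n).2
    have h7 : k n * (F γ p z (rho0 γ p z m) + γ * ∫ x, breg p (ρ n x) (rho0 γ p z m x)) ≤
        k n * (F γ p z (rho0 γ p z m) + γ * ε / 4) + C := by
      calc _ ≤ k n * F γ p z (ρ n) := mul_le_mul_of_nonneg_left h6 hkn.le
        _ ≤ _ := h4
        _ ≤ _ := by gcongr
    linarith
  have h8 : C ≤ k n * (γ * ε / 4) := by
    have h9 : 4 * C / (γ * ε) ≤ k n := by
      have : (N : ℝ) ≤ n := by exact_mod_cast hn
      linarith [hk n]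
    rw [div_le_iff₀ (by positivity)] at h9
    linarith
  have h10 : ∫ x, breg p (ρ n x) (rho0 γ p z m x) ≤ ε / 2 := by
    have h11 : k n * γ * (∫ x, breg p (ρ n x) (rho0 γ p z m x)) ≤ k n * γ * (ε / 2) := by
      linarith
    exact le_of_mul_le_mul_left h11 (by positivity)
  rw [Real.dist_eq, sub_zero, abs_of_nonneg (hbn n)]
  linarith

end Pool.Agent.Q62.VW
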