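import Mathlib

/-! Project VW (MP_3d36e1_mp, Thomas-Fermi-von Weizsacker density root): definitions, statements. -/

open MeasureTheory Filter Topology Set
open scoped ContDiff ENNReal

namespace Pool.Agent.Q62.VW

/-- `ℝ³` -/
abbrev E3 := EuclideanSpace ℝ (Fin 3)

/-- `C_c^∞(ℝ³)` -/
def Test (φ : E3 → ℝ) : Prop := ContDiff ℝ ∞ φ ∧ HasCompactSupport φ

/-- `G` is the weak gradient of `ψ` -/
def WeakGrad (ψ : E3 → ℝ) (G : E3 → E3) : Prop :=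
  ∀ φ, Test φ → ∀ i : Fin 3,
    ∫ x, ψ x * fderiv ℝ φ x (EuclideanSpace.single i 1) = - ∫ x, G x i * φ x

/-- the Coulomb energy `D(ρ, ρ)` -/
noncomputable def coul (ρ : E3 → ℝ) : ℝ :=
  1 / 2 * ∫ q : E3 × E3, ρ q.1 * ρ q.2 / ‖q.1 - q.2‖

/-- admissible densities, `G = ∇ √ρ` -/
structure Adm (p : ℝ) (ρ : E3 → ℝ) (G : E3 → E3) : Prop where
  nonneg : ∀ x, 0 ≤ ρ x
  int : Integrable ρ
  intp : Integrable (fun x => ρ x ^ p)
  intD : Integrable (fun q : E3 × E3 => ρ q.1 * ρ q.2 / ‖q.1 - q.2‖)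
  gradL2 : MemLp G 2
  weak : WeakGrad (fun x => √(ρ x)) G

/-- the TFW energy -/
noncomputable def energy (A γ p z : ℝ) (ρ : E3 → ℝ) (G : E3 → E3) : ℝ :=
  A * (∫ x, ‖G x‖ ^ 2) + γ / p * (∫ x, ρ x ^ p) - (∫ x, z / ‖x‖ * ρ x) + coul ρ

/-- minimisers of the TFW energy with `∫ ρ ≤ lam` -/
def IsMin (A γ p z lam : ℝ) (ρ : E3 → ℝ) (G : E3 → E3) : Prop :=
  Adm p ρ G ∧ ∫ x, ρ x ≤ lam ∧
    ∀ ρ' G', Adm p ρ' G' → ∫ x, ρ' x ≤ lam → energy A γ p z ρ G ≤ energy A γ p z ρ' G'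

/-- the local part of the energy -/
noncomputable def F (γ p z : ℝ) (ρ : E3 → ℝ) : ℝ :=
  γ / p * (∫ x, ρ x ^ p) - ∫ x, z / ‖x‖ * ρ x

/-- the radial profile of the minimiser of the local part -/
noncomputable def prof (γ p z m : ℝ) (r : ℝ) : ℝ := (max (z / r - m) 0 / γ) ^ (1 / (p - 1))

/-- the minimiser of the local part -/
noncomputable def rho0 (γ p z m : ℝ) (x : E3) : ℝ := prof γ p z m ‖x‖

/-- the Bregman distance of the power `p` -/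
noncomputable def breg (p a b : ℝ) : ℝ := a ^ p / p - b ^ p / p - b ^ (p - 1) * (a - b)

/-- **L1 (integrability of the profile).** `0 ≤ rho0`; it vanishes for `‖x‖ ≥ z / m` and
`rho0 x ≤ (z / γ)^q ‖x‖^(-q)` with `q = 1 / (p - 1) ∈ (0, 2)`. As `q < 3`, `q p = p / (p - 1) < 3`,
`q + 1 < 3` the three functions are bounded by `C ‖x‖^(-s)`, `s < 3`, on a ball and zero outside
(`‖x‖^(-s)` is integrable on balls of `ℝ³` for `s < 3`: polar coordinates, or the library).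
Measurability: composition of measurable functions. -/
def S_L1 : Prop := ∀ γ p z m : ℝ, 0 < γ → 3 / 2 < p → 0 < z → 0 < m →
  (∀ x, 0 ≤ rho0 γ p z m x) ∧ Measurable (rho0 γ p z m) ∧ Integrable (rho0 γ p z m) ∧
  Integrable (fun x => rho0 γ p z m x ^ p) ∧ Integrable (fun x => z / ‖x‖ * rho0 γ p z m x)

/-- **L2 (mass).** Scaling `x = (z / m) y`: `z / ‖x‖ - m = m (1 / ‖y‖ - 1)`, so
`∫ rho0 γ p z m = (z / m)^3 (m / γ)^q ∫ rho0 1 p 1 1 = C m^(q - 3)` with `C > 0`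
(`Measure.integral_comp_smul`, `finrank = 3`; `∫ rho0 1 p 1 1 > 0` as the function is
nonnegative, integrable by L1 and positive on the unit ball minus the origin), `q - 3 < 0`. Given
`lam` take `m = (C / lam)^(1 / (3 - q))`. -/
def S_L2 : Prop := ∀ γ p z lam : ℝ, 0 < γ → 3 / 2 < p → 0 < z → 0 < lam →
  ∃ m : ℝ, 0 < m ∧ ∫ x, rho0 γ p z m x = lam

/-- **L3 (Bregman distance).** Strict convexity of `a ↦ a^p / p` on `[0, ∞)`, with derivative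
`b^(p-1)` at `b` (for `b = 0`: `breg p a 0 = a^p / p`). If `breg p (a n) b → 0` but `|a n - b| ≥ ε`
frequently, then, `breg p · b` being decreasing on `[0, b]` and increasing on `[b, ∞)` (its
derivative is `a^(p-1) - b^(p-1)`), `breg p (a n) b ≥ min (breg p (b + ε) b) (breg p (b - ε) b) > 0`
(the second only if `b ≥ ε`). -/
def S_L3 : Prop := ∀ p : ℝ, 1 < p → (∀ a b : ℝ, 0 ≤ a → 0 ≤ b → 0 ≤ breg p a b) ∧
  ∀ (a : ℕ → ℝ) (b : ℝ), (∀ n, 0 ≤ a n) → 0 ≤ b → Tendsto (fun n => breg p (a n) b) atTop (𝓝 0) →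
    Tendsto a atTop (𝓝 b)

/-- **L5 (the potential energy is finite).** On `‖x‖ ≥ 1`: `z / ‖x‖ * ρ ≤ z ρ`. On `‖x‖ < 1`, Young's
inequality: `ρ / ‖x‖ ≤ ρ^p / p + ‖x‖^(-p') / p'`, `p' = p / (p - 1) < 3`, and `‖x‖^(-p')` is
integrable on the unit ball of `ℝ³`. -/
def S_L5 : Prop := ∀ (p z : ℝ) (ρ : E3 → ℝ), 3 / 2 < p → 0 < z → (∀ x, 0 ≤ ρ x) → Integrable ρ →
  Integrable (fun x => ρ x ^ p) → Integrable (fun x => z / ‖x‖ * ρ x)

/-- **L4 (lower bound).** (From `S_L1`, `S_L3`, `S_L5`.) Write `ρ₀ = rho0 γ p z m`. For `x ≠ 0`: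
`γ ρ₀^(p-1) = max (z / ‖x‖ - m) 0`. So
`γ ρ^p / p - γ ρ₀^p / p - (z / ‖x‖) (ρ - ρ₀) = γ breg p ρ ρ₀ + (γ ρ₀^(p-1) - z / ‖x‖) (ρ - ρ₀)
≥ γ breg p ρ ρ₀ - m (ρ - ρ₀)` (equality where `ρ₀ > 0`; where `ρ₀ = 0`, `z / ‖x‖ ≤ m` and `ρ ≥ 0`).
Integrate. The function `breg p ρ ρ₀` is integrable: it is measurable, nonnegative, and by this
inequality bounded by an integrable function. -/
def S_L4 : Prop := ∀ (γ p z m : ℝ) (ρ : E3 → ℝ), 0 < γ → 3 / 2 < p → 0 < z → 0 < m →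
  (∀ x, 0 ≤ ρ x) → Integrable ρ → Integrable (fun x => ρ x ^ p) →
  ∫ x, ρ x ≤ ∫ x, rho0 γ p z m x →
  Integrable (fun x => breg p (ρ x) (rho0 γ p z m x)) ∧
  F γ p z (rho0 γ p z m) + γ * ∫ x, breg p (ρ x) (rho0 γ p z m x) ≤ F γ p z ρ

/-- **L6 (trial functions).** (From `S_L1`.) Put `h x = √(rho0 γ p z m x)`, `R = z / m`. For `k` large
(`4 / k < R`) let `θ = b₁ (1 - b₂)` with smooth bump functions centred at `0`: `b₁ = 1` for
`‖x‖ ≤ R - 2/k`, `b₁ = 0` for `‖x‖ ≥ R - 1/k`; `b₂ = 1` for `‖x‖ ≤ 1/k`, `b₂ = 0` for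
`‖x‖ ≥ 2/k` (`ContDiffBump`). `w_k = θ h` is smooth (on the open set `0 < ‖x‖ < R` the function
`h x = ((z / ‖x‖ - m) / γ)^(q/2)` is smooth, and `θ` vanishes near the complement), compactly
supported, `0 ≤ w_k ≤ h`, and `w_k → h` for all `x ≠ 0`. By dominated convergence (L1)
`∫ w_k^2 ≤ ∫ rho0`, `∫ (w_k^2)^p → ∫ rho0^p`, `∫ z / ‖x‖ * w_k^2 → ∫ z / ‖x‖ * rho0`. -/
def S_L6 : Prop := ∀ γ p z m : ℝ, 0 < γ → 3 / 2 < p → 0 < z → 0 < m → ∀ η > 0,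
  ∃ w : E3 → ℝ, Test w ∧ (∀ x, 0 ≤ w x) ∧ ∫ x, w x ^ 2 ≤ ∫ x, rho0 γ p z m x ∧
    F γ p z (fun x => w x ^ 2) ≤ F γ p z (rho0 γ p z m) + η

/-- **L7 (test functions are admissible).** `√(w^2) = w`, integration by parts
(`integral_mul_fderiv_eq_neg_fderiv_mul_of_integrable`, or the version for compact support), and
`G = gradient w`: `G x i = fderiv ℝ w x (single i 1)`. The Coulomb integral: `w^2 ≤ M`, supported in
the ball of radius `R`; `‖x - y‖⁻¹ = (‖x - y‖⁻¹ 1_{‖x-y‖ ≤ 2R})` on the support, which is integrable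
on `B_R × ℝ³` (change of variables `(x, y) ↦ (x, x - y)`, `‖y‖⁻¹` is integrable on balls of `ℝ³`). -/
def S_L7 : Prop := ∀ (p : ℝ) (w : E3 → ℝ), 1 < p → Test w → (∀ x, 0 ≤ w x) →
  Adm p (fun x => w x ^ 2) (fun x => gradient w x)

/-- **L8 (the profile is not convex).** Let `H r = √(prof γ p z m r)`, `R = z / m`, `q = 1 / (p - 1)`,
`q / 2 < 1`. `H` is continuous on `(0, ∞)`. For small `s > 0`: `H R = 0`,
`H (R - s) = (m s / ((R - s) γ))^(q/2)`, `H (R - 2 s) = (2 m s / ((R - 2 s) γ))^(q/2)`, so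
`H (R - s) / H (R - 2 s) = ((R - 2 s) / (2 (R - s)))^(q/2)`, which tends to `(1/2)^(q/2) > 1/2` as
`s → 0`. Take `r₁ = R - 2 s`, `r₂ = R - s`, `r₃ = R`, so that `H r₂ > (H r₁ + H r₃) / 2`. -/
def S_L8 : Prop := ∀ γ p z m : ℝ, 0 < γ → 3 / 2 < p → 0 < z → 0 < m →
  ContinuousOn (fun r => √(prof γ p z m r)) (Ioi 0) ∧
  ∃ r s : ℝ, 0 < r ∧ 0 < s ∧
    (√(prof γ p z m r) + √(prof γ p z m (r + 2 * s))) / 2 < √(prof γ p z m (r + s))

/-- **L9 (compactness).** (From `S_L3`, `S_L8`.) `breg p (ρ n) ρ₀ ≥ 0` tends to `0` in `L¹`, so (in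
measure, and) almost everywhere along a subsequence; by L3 `ρ n x → ρ₀ x` for almost every `x`, and
`f n ‖x‖ → H ‖x‖`, along the subsequence. The set of the radii `r > 0` for which `f n r → H r` along
the subsequence is dense in `(0, ∞)` (each shell `a < ‖x‖ < b` has positive measure). For `r₁ < r₂ < r₃`
in this set convexity of `f n` gives
`(r₃ - r₁) H r₂ ≤ (r₃ - r₂) H r₁ + (r₂ - r₁) H r₃`; by continuity of `H` this holds for all
`0 < r₁ < r₂ < r₃`. This contradicts L8. -/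
def S_L9 : Prop := ∀ (γ p z m : ℝ) (ρ : ℕ → E3 → ℝ) (f : ℕ → ℝ → ℝ), 0 < γ → 3 / 2 < p → 0 < z →
  0 < m → (∀ n x, 0 ≤ ρ n x) → (∀ n, ConvexOn ℝ (Ici 0) (f n)) →
  (∀ n, ∀ᵐ x, √(ρ n x) = f n ‖x‖) →
  (∀ n, Integrable (fun x => breg p (ρ n x) (rho0 γ p z m x))) →
  ¬ Tendsto (fun n => ∫ x, breg p (ρ n x) (rho0 γ p z m x)) atTop (𝓝 0)

end Pool.Agent.Q62.VW
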